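import Pool.Agent.Q107.Broadcast.Nine

/-!
# Connected graphs of large minimum degree with `α_bnr > Γ_b`

The definitions `ecc`, `IsBroadcast`, `IsMinDominating`, `upperBroadcastNum`, `IsBnIndep`,
`IsIrredundant` and `bnrIndepNum` are in `Pool.Agent.Q107.Broadcast.Defs`.
-/

set_option autoImplicit false

namespace Pool.Agent.Results.MP_99edab_co.LargeMinDegree

open SimpleGraph Q107.Broadcast

/-- For every `d` there is a finite connected graph `G` in which every vertex has at least `d`
neighbours and `α_bnr(G) > Γ_b(G)`; in particular (`d = 2`) one with minimum degree at least 2. -/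
theorem result (d : ℕ) :
    ∃ (V : Type) (_ : Fintype V) (G : SimpleGraph V), G.Connected ∧
      (∀ v, d ≤ (G.neighborSet v).ncard) ∧ upperBroadcastNum G < bnrIndepNum G := by
  have h := blow9 (d + 1) (by omega)
  refine ⟨Fin 9 × Fin (d + 1), inferInstance, blow g9 (d + 1), ?_, ?_, ?_⟩
  · rw [connected_iff]
    exact ⟨fun x y => (blow_table g9_connected x y).1, ⟨(0, ⟨0, by omega⟩)⟩⟩
  · rintro ⟨v, i⟩
    have h1 : (fun j : Fin (d + 1) => (v, j)) '' {i}ᶜ ⊆ (blow g9 (d + 1)).neighborSet (v, i) := by
      rintro x ⟨j, hj, rfl⟩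
      exact Or.inl ⟨rfl, fun h => hj h.symm⟩
    have h2 := Set.ncard_le_ncard h1 (Set.toFinite _)
    rw [Set.ncard_image_of_injective _ (fun a b h => (Prod.mk.inj h).2), Set.ncard_compl,
      Set.ncard_singleton, Nat.card_eq_fintype_card, Fintype.card_fin] at h2
    omega
  · omega

end Pool.Agent.Results.MP_99edab_co.LargeMinDegree
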